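import Pool.Agent.MP_bd94e8_al.H89.Spec

/-! Closed pieces of a graded cover are directed and satisfy the separation condition. -/

set_option autoImplicit false
set_option linter.unusedSectionVars false

namespace Pool.Agent.MP_bd94e8_al.H89

open Module Function

namespace SepA

variable {k F : Type} [Field k] [Field F] [Algebra k F] {Pt ι Ω : Type} [Fintype Pt]
  [DecidableEq Pt] {P : Prob k F Pt ι Ω} {G : Type} [Group G] {deg : Pt → G}

theorem reach_fin {rk : ι → ℕ} (hrk : Rk P rk) (n : ℕ) : ∀ x : ι × G, rk x.1 < n →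
    {y | Relation.ReflTransGen (LS P.vt P.Ar deg) x y}.Finite := by
  induction n with
  | zero => intro x h; exact absurd h (Nat.not_lt_zero _)
  | succ n ih =>
    intro x hx
    have h1 : {z | LS P.vt P.Ar deg x z}.Finite := by
      refine (Set.finite_range fun a : Pt × Pt =>
        (P.vt a.2, x.2 * deg a.1 * (deg a.2)⁻¹)).subset ?_
      rintro z ⟨p, q, -, hq, -, -, h⟩
      exact ⟨(p, q), Prod.ext hq (by simp [h])⟩
    have h2 : ∀ z ∈ {z | LS P.vt P.Ar deg x z},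
        {y | Relation.ReflTransGen (LS P.vt P.Ar deg) z y}.Finite := by
      rintro z ⟨p, q, hp, hq, hne, ⟨-, b, hb, h0⟩, -⟩
      have := hrk b hb q p h0 hne.symm
      rw [hp, hq] at this
      exact ih z (by omega)
    refine ((h1.biUnion h2).insert x).subset fun y hy => ?_
    rcases Relation.ReflTransGen.cases_head hy with h | ⟨z, hz, h⟩
    · exact Or.inl h.symm
    · exact Or.inr (Set.mem_biUnion hz h)

theorem closure {rk : ι → ℕ} (hrk : Rk P rk) (Γ₀ : Finset (ι × G))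
    (h0 : ∀ x ∈ Γ₀, ∃ p, P.vt p = x.1) : ∃ Γ : Finset (ι × G), Γ₀ ⊆ Γ ∧
    (∀ x ∈ Γ, ∃ p, P.vt p = x.1) ∧
    ∀ x ∈ (Γ : Set (ι × G)), ∀ y, LS P.vt P.Ar deg x y → y ∈ (Γ : Set (ι × G)) := by
  have hf := Γ₀.finite_toSet.biUnion fun x _ => reach_fin (deg := deg) hrk _ x (Nat.lt_succ_self _)
  refine ⟨hf.toFinset, fun x hx => hf.mem_toFinset.2 (Set.mem_biUnion hx .refl), fun y hy => ?_,
    fun y hy z hz => ?_⟩
  · obtain ⟨x, hx, h⟩ := Set.mem_iUnion₂.1 (hf.mem_toFinset.1 hy)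
    rcases Relation.ReflTransGen.cases_tail h with h | ⟨z, -, p, q, -, hq, -⟩
    · exact h ▸ h0 x hx
    · exact ⟨q, hq⟩
  · obtain ⟨x, hx, h⟩ := Set.mem_iUnion₂.1 (hf.mem_toFinset.1 hy)
    exact hf.mem_toFinset.2 (Set.mem_biUnion hx (Relation.ReflTransGen.tail h hz))

theorem shift (g : G) {x y : ι × G} (h : Relation.ReflTransGen (LS P.vt P.Ar deg) x y) :
    Relation.ReflTransGen (LS P.vt P.Ar deg) (x.1, g * x.2) (y.1, g * y.2) := by
  induction h with
  | refl => exact .refl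
  | tail _ h ih =>
    obtain ⟨p, q, hp, hq, hne, ha, h⟩ := h
    exact ih.tail ⟨p, q, hp, hq, hne, ha, by simp only [mul_assoc, h]⟩

theorem single_mem {a j : ι} (hsm : ∀ (c : F), ∀ b ∈ P.H a j, c • b ∈ P.B)
    {m : Matrix Pt Pt F} (hm : m ∈ P.H a j) {x q : Pt} (hne : q ≠ x) (h0 : m q x ≠ 0)
    (h1 : ∀ r p, m r p ≠ 0 → r = q ∧ p = x) : Matrix.single q x (1 : F) ∈ P.R0 := by
  have h : Matrix.single q x (1 : F) = (m q x)⁻¹ • m := by
    ext r p
    by_cases e : q = r ∧ x = p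
    · obtain ⟨rfl, rfl⟩ := e
      simp [h0]
    · have : m r p = 0 := by
        by_contra h2
        exact e ⟨(h1 r p h2).1.symm, (h1 r p h2).2.symm⟩
      simp [e, this]
  refine ⟨h ▸ hsm _ m hm, fun p => ?_⟩
  rw [Matrix.single_apply, if_neg fun e => hne (e.1.trans e.2.symm)]

variable {T I O : Type} [Fintype T] [DecidableEq T] {J : Prob k F T I O} {π : T → Pt}
  {γ : I → ι × G} {θ : O → Ω × G}

theorem up_mem (C : Cover J P π) {h : Matrix Pt Pt F} (hh : h ∈ P.B) (i j : I)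
    (hp : ∀ t t', J.vt t = i → J.vt t' = j → h (π t') (π t) ≠ 0 → J.pk t' = J.pk t) :
    J.blk i j (h.submatrix π π) ∈ J.H i j := by
  refine ⟨(C.mem _).2 ⟨fun t' t h0 => hp t t' (mask_ne h0).1.1 (mask_ne h0).1.2 (mask_ne h0).2,
    fun i' j' => ?_⟩, fun _ _ h0 => (mask_ne h0).1⟩
  by_cases e : i' = i ∧ j' = j
  · exact ⟨h, hh, fun t t' ht ht' => J.blk_pos _ (ht.trans e.1) (ht'.trans e.2)⟩
  · exact ⟨0, P.B.zero_mem, fun t t' ht ht' =>
      J.blk_neg _ fun h => e ⟨ht.symm.trans h.1, ht'.symm.trans h.2⟩⟩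

theorem exists_pt (L : Lift J P deg π γ θ) (i : I) {p : Pt} (h : P.vt p = (γ i).1) :
    ∃ t, J.vt t = i ∧ π t = p := by
  obtain ⟨t, rfl⟩ := L.surj i
  exact L.cov.full t p (h.trans (L.vt t))

theorem vt_eq (L : Lift J P deg π γ θ) {i : I} {t : T} (h : J.vt t = i) : P.vt (π t) = (γ i).1 :=
  h ▸ (L.vt t).symm

theorem vt_of_pk (L : Lift J P deg π γ θ)
    (hd : ∀ p q, P.vt p = P.vt q → P.pk p = P.pk q → deg p = deg q) {t t' : T}
    (h : J.pk t = J.pk t') (h' : P.vt (π t) = P.vt (π t')) : J.vt t = J.vt t' := by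
  have h1 := (L.pk t).symm.trans ((congrArg θ h).trans (L.pk t'))
  have h2 := congrArg Prod.snd h1
  rw [hd _ _ h' (congrArg Prod.fst h1)] at h2
  exact L.γinj (Prod.ext (by rw [L.vt, L.vt, h']) (mul_right_cancel h2))

theorem pk_of_vt (L : Lift J P deg π γ θ)
    (hd : ∀ p q, P.vt p = P.vt q → P.pk p = P.pk q → deg p = deg q) {t t' : T}
    (h : J.vt t = J.vt t') (h' : P.pk (π t) = P.pk (π t')) : J.pk t = J.pk t' := by
  refine L.θinj ?_
  rw [L.pk, L.pk, h, h', hd _ _ (L.cov.vt_eq t t' h) h']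

theorem sum_fib (L : Lift J P deg π γ θ) (i : I) (f : Pt → F) (f' : T → F)
    (hf : ∀ p, P.vt p ≠ (γ i).1 → f p = 0) (hf' : ∀ s, J.vt s ≠ i → f' s = 0)
    (h : ∀ s, J.vt s = i → f' s = f (π s)) : ∑ s, f' s = ∑ p, f p := by
  classical
  rw [← Finset.sum_filter_of_ne (p := fun s => J.vt s = i) fun s _ h0 => by
    by_contra h1
    exact h0 (hf' s h1)]
  refine Finset.sum_of_injOn π (fun s hs s' hs' e => ?_) (fun _ _ => Finset.mem_univ _)
    (fun p _ hp => hf p fun e => hp ?_) fun s hs => h s (Finset.mem_filter.1 hs).2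
  · exact L.cov.inj s s' ((Finset.mem_filter.1 hs).2.trans (Finset.mem_filter.1 hs').2.symm) e
  · obtain ⟨t, ht, rfl⟩ := exists_pt L i e
    exact ⟨t, Finset.mem_filter.2 ⟨Finset.mem_univ _, ht⟩, rfl⟩

theorem dir (L : Lift J P deg π γ θ) (hD : Dir P)
    (hd : ∀ p q, P.vt p = P.vt q → P.pk p = P.pk q → deg p = deg q) : Dir J := by
  obtain ⟨rk, hrk⟩ := hD.rk
  refine ⟨L.surj, ⟨fun i => rk (γ i).1, fun b hb t' t h0 hne => ?_⟩, fun i b hb h0 => ?_⟩
  · obtain ⟨h1, h2⟩ := (L.cov.mem b).1 hb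
    obtain ⟨h, hh, e⟩ := h2 (J.vt t) (J.vt t')
    rw [e t t' rfl rfl] at h0
    have := hrk h hh _ _ h0 fun e' => hne (vt_of_pk L hd (h1 t' t (by rwa [e t t' rfl rfl])) e')
    simpa only [L.vt] using this
  · obtain ⟨h, hh, e⟩ := ((L.cov.mem b).1 hb.1).2 i i
    have h1 : P.blk (γ i).1 (γ i).1 h ≠ 0 := fun h1 => h0 (by
      ext t' t
      by_contra h2
      obtain ⟨ht, ht'⟩ := hb.2 t' t h2
      have h3 := congrFun (congrFun h1 (π t')) (π t)
      rw [P.blk_pos _ (vt_eq L ht) (vt_eq L ht'), ← e t t' ht ht'] at h3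
      exact h2 h3)
    obtain ⟨h', hh', e'⟩ := hD.div _ _ (P.blk_mem hh _ _) h1
    refine ⟨_, up_mem L.cov hh'.1 i i fun t t' ht ht' h2 =>
      pk_of_vt L hd (ht'.trans ht.symm) (P.peak h' hh'.1 _ _ h2), ?_⟩
    ext t' t
    rw [Matrix.mul_apply]
    by_cases ht : J.vt t = i
    · by_cases ht' : J.vt t' = i
      · rw [sum_fib L i (fun p => h' (π t') p * P.blk (γ i).1 (γ i).1 h p (π t)) _
          (fun p hp => by rw [P.blk_neg _ fun h => hp h.2, mul_zero])
          (fun s hs => by rw [J.blk_neg _ fun h => hs h.1, zero_mul])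
          (fun s hs => by
            rw [J.blk_pos _ hs ht', P.blk_pos _ (vt_eq L ht) (vt_eq L hs), e t s ht hs]
            rfl), ← Matrix.mul_apply, e', P.e_pos _ (vt_eq L ht), J.e_pos _ ht]
        by_cases h3 : t' = t
        · rw [h3, Matrix.one_apply_eq, Matrix.one_apply_eq]
        · rw [Matrix.one_apply_ne h3,
            Matrix.one_apply_ne fun h4 => h3 (L.cov.inj _ _ (ht'.trans ht.symm) h4)]
      · rw [J.e_off i fun h3 : t' = t => ht' (h3 ▸ ht)]
        exact Finset.sum_eq_zero fun s _ => by rw [J.blk_neg _ fun h => ht' h.2, zero_mul]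
    · rw [J.e_neg _ ht]
      refine Finset.sum_eq_zero fun s _ => ?_
      have : b s t = 0 := by
        by_contra h2
        exact ht (hb.2 s t h2).1
      rw [this, mul_zero]

theorem lift_path (L : Lift J P deg π γ θ)
    (hA : ∀ t t', J.pk t = J.pk t' → (J.Ar t t' ↔ P.Ar (π t) (π t')))
    (hc : ∀ x ∈ Set.range γ, ∀ y, LS P.vt P.Ar deg x y → y ∈ Set.range γ) (i : I) {y : ι × G}
    (h : Relation.ReflTransGen (LS P.vt P.Ar deg) (γ i) y) :
    ∃ j, γ j = y ∧ Relation.ReflTransGen J.Succ i j := by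
  induction h with
  | refl => exact ⟨i, rfl, .refl⟩
  | tail _ h ih =>
    obtain ⟨j, rfl, hj⟩ := ih
    obtain ⟨j', rfl⟩ := hc _ ⟨j, rfl⟩ _ h
    obtain ⟨p, q, hp, hq, -, ha, h⟩ := h
    obtain ⟨t, ht, rfl⟩ := exists_pt L j hp
    obtain ⟨t', ht', rfl⟩ := exists_pt L j' hq
    have h1 : J.pk t = J.pk t' := by
      obtain ⟨-, b, hb, h0⟩ := ha
      refine L.θinj ?_
      rw [L.pk, L.pk, ht, ht', h, P.peak b hb _ _ h0]
    obtain ⟨-, b, hb, h0⟩ := (hA t t' h1).2 ha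
    exact ⟨j', rfl, hj.tail ⟨b, hb, t, t', ht, ht', h0⟩⟩

theorem valued (L : Lift J P deg π γ θ)
    (hd : ∀ p q, P.vt p = P.vt q → P.pk p = P.pk q → deg p = deg q) (i : I)
    (hrow : RowSimple P (γ i).1) {g g' : Matrix T T F} (hg : J.In i i g) (hg' : J.In i i g')
    (h0 : g ≠ 0) (h0' : g' ≠ 0) : ∃ h ∈ J.H i i, g * h * g' ≠ 0 := by
  classical
  by_contra hc
  have hc' : ∀ h ∈ J.H i i, g * h * g' = 0 := fun h hh => by
    by_contra h1
    exact hc ⟨h, hh, h1⟩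
  obtain ⟨t0, s0, h1⟩ : ∃ t s, g t s ≠ 0 := by
    by_contra h
    exact h0 (by ext t s; by_contra h2; exact h ⟨t, s, h2⟩)
  obtain ⟨s1, t1, h1'⟩ : ∃ s t, g' s t ≠ 0 := by
    by_contra h
    exact h0' (by ext t s; by_contra h2; exact h ⟨t, s, h2⟩)
  let W : Submodule F (Pt → F) :=
    { carrier := {x | (∀ p, P.vt p ≠ (γ i).1 → x p = 0) ∧
        ∀ h ∈ P.H (γ i).1 (γ i).1, ∑ s, Matrix.vecMul x h (π s) * g' s t1 = 0}
      add_mem' := fun {x y} hx hy => ⟨fun p hp => by simp [hx.1 p hp, hy.1 p hp], fun h hh => by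
        simp only [Matrix.add_vecMul, Pi.add_apply, add_mul, Finset.sum_add_distrib, hx.2 h hh,
          hy.2 h hh, add_zero]⟩
      zero_mem' := ⟨fun _ _ => rfl, fun h _ => by simp⟩
      smul_mem' := fun c x hx => ⟨fun p hp => by simp [hx.1 p hp], fun h hh => by
        simp only [Matrix.smul_vecMul, Pi.smul_apply, smul_eq_mul, mul_assoc, ← Finset.mul_sum,
          hx.2 h hh, mul_zero]⟩ }
  have hx : (fun p => ∑ s, if π s = p then g t0 s else 0) ∈ W := by
    refine ⟨fun p hp => Finset.sum_eq_zero fun s _ => ?_, fun h hh => ?_⟩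
    · split_ifs with e
      · by_contra h2
        exact hp (e ▸ vt_eq L (hg t0 s h2).1)
      · rfl
    · have h2 := congrFun (congrFun (hc' _ (up_mem L.cov hh.1 i i fun t t' ht ht' h2 =>
        pk_of_vt L hd (ht'.trans ht.symm) (P.peak h hh.1 _ _ h2))) t0) t1
      rw [Matrix.mul_apply] at h2
      refine Eq.trans (Finset.sum_congr rfl fun s _ => ?_) h2
      by_cases h3 : g' s t1 = 0
      · rw [h3, mul_zero, mul_zero]
      · refine congrArg (· * g' s t1) ?_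
        simp only [Matrix.vecMul, dotProduct, Finset.sum_mul, Matrix.mul_apply]
        rw [Finset.sum_comm]
        refine Finset.sum_congr rfl fun r _ => ?_
        simp only [ite_mul, zero_mul, Finset.sum_ite_eq, Finset.mem_univ, if_true]
        by_cases h4 : g t0 r = 0
        · rw [h4, zero_mul, zero_mul]
        · rw [J.blk_pos _ (hg' s t1 h3).2 (hg t0 r h4).1]
          rfl
  have hst : ∀ b ∈ P.H (γ i).1 (γ i).1, ∀ x ∈ W, Matrix.vecMul x b ∈ W := by
    refine fun b hb x hx => ⟨fun p hp => ?_, fun h hh => ?_⟩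
    · refine Finset.sum_eq_zero fun r _ => ?_
      have : b r p = 0 := by
        by_contra h2
        exact hp (hb.2 r p h2).1
      simp [this]
    · rw [Matrix.vecMul_vecMul]
      refine hx.2 _ ⟨P.B.mul_mem hb.1 hh.1, fun q p h2 => ?_⟩
      obtain ⟨r, -, h3⟩ := Finset.exists_ne_zero_of_sum_ne_zero h2
      exact ⟨(hh.2 r p (right_ne_zero_of_mul h3)).1, (hb.2 q r (left_ne_zero_of_mul h3)).2⟩
  rcases hrow W (fun x hx => hx.1) hst with h | h
  · rw [h] at hx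
    have h2 := congrFun ((Submodule.mem_bot F).1 hx) (π s0)
    rw [Finset.sum_eq_single s0 (fun s _ hs => ?_) (by simp), if_pos rfl] at h2
    · exact h1 h2
    · split_ifs with e
      · by_contra h3
        exact hs (L.cov.inj _ _ ((hg t0 s h3).1.trans (hg t0 s0 h1).1.symm) e)
      · rfl
  · have hs1 := vt_eq L (hg' s1 t1 h1').2
    have h2 := (h (Pi.single (π s1) 1) fun p hp =>
      Pi.single_eq_of_ne (fun e : p = π s1 => hp (e ▸ hs1)) _).2 (P.e (γ i).1)
      ⟨P.e_mem _, fun q p h2 => by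
        have h3 : P.vt p = (γ i).1 := by
          by_contra h3
          exact h2 (P.e_neg q h3)
        have h4 : q = p := by
          by_contra h4
          exact h2 (P.e_off _ h4)
        exact ⟨h3, h4 ▸ h3⟩⟩
    rw [Finset.sum_eq_single s1 (fun s _ hs => ?_) (by simp), Matrix.single_one_vecMul] at h2
    · exact h1' (by simpa [Matrix.row, P.e_pos _ hs1] using h2)
    · by_cases h3 : g' s t1 = 0
      · rw [h3, mul_zero]
      · rw [Matrix.single_one_vecMul, Matrix.row, P.e_off _ fun e =>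
          hs (L.cov.inj _ _ ((hg' s t1 h3).2.trans (hg' s1 t1 h1').2.symm) e.symm), zero_mul]

theorem link_eq (L : Lift J P deg π γ θ)
    (hc : ∀ x ∈ Set.range γ, ∀ y, LS P.vt P.Ar deg x y → y ∈ Set.range γ) (i : I)
    (hdist : ∀ p q, P.vt p = (γ i).1 → P.vt q = (γ i).1 → P.pk p = P.pk q → p = q)
    (hsm : ∀ j (c : F), ∀ b ∈ P.H (γ i).1 j, c • b ∈ P.B) {g : Matrix T T F} (hg : EndR J i g)
    (hdg : ∀ t' t, t' ≠ t → g t' t = 0) {t s : T} (ht : J.vt t = i) (hs : J.vt s = i)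
    (hl : Link (Tie P.vt P.R0) (π t) (π s)) : g t t = g s s := by
  by_cases hts : t = s
  · rw [hts]
  have hxy : π t ≠ π s := fun e => hts (L.cov.inj _ _ (ht.trans hs.symm) e)
  obtain ⟨q, q', -, -, hq, hns, h, hh, h1, h2, h3⟩ := hl
  dsimp only at hq hns h1 h2
  have ha := vt_eq L ht
  have hj : P.vt (π t) ≠ P.vt q := fun e => by
    have := hdist q (π t) (e.symm.trans ha) ha (P.peak h hh.1 _ _ h1)
    rw [this] at h1
    exact h1 (hh.2 _)
  have hqt : q ≠ π t := fun e => hj (by rw [e])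
  obtain ⟨j, hjγ⟩ := hc _ ⟨i, rfl⟩ (P.vt q, (γ i).2 * deg (π t) * (deg q)⁻¹)
    ⟨π t, q, ha, rfl, hj, ⟨hqt.symm, h, hh.1, h1⟩, by simp⟩
  have hj1 : (γ j).1 = P.vt q := by rw [hjγ]
  obtain ⟨u, hu, rfl⟩ := exists_pt L j hj1.symm
  have hpk : J.pk u = J.pk t := by
    refine L.θinj ?_
    rw [L.pk, L.pk, hu, ht, hjγ, P.peak h hh.1 _ _ h1]
    simp
  have hji : j ≠ i := fun e => hj (by rw [ha, ← hj1, e])
  obtain ⟨h', hh', e'⟩ := L.cov.homog h hh.1 i j
  have hb := up_mem L.cov hh' i j fun r r' hr hr' h4 => by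
    by_contra h5
    exact h4 ((e' r r' hr hr').2 h5)
  obtain ⟨m, hm, em⟩ := ((L.cov.mem _).1 (hg.2.2 j hji _ hb)).2 i j
  have em' : ∀ r r', J.vt r = i → J.vt r' = j → m (π r') (π r) = h' (π r') (π r) * g r r := by
    intro r r' hr hr'
    rw [← em r r' hr hr', Matrix.mul_apply, Finset.sum_eq_single r
      (fun z _ hz => by rw [hdg z r hz, mul_zero]) (by simp), J.blk_pos _ hr hr']
    rfl
  by_contra hne
  have hmem : P.blk (γ i).1 (γ j).1 m - g s s • P.blk (γ i).1 (γ j).1 h' ∈ P.H (γ i).1 (γ j).1 := by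
    refine sub_mem (P.blk_mem hm _ _) ⟨hsm _ _ _ (P.blk_mem hh' _ _), fun r p h4 => ?_⟩
    exact (P.blk_mem hh' _ _).2 r p (right_ne_zero_of_mul h4)
  have hval : ∀ r r', J.vt r = i → J.vt r' = j →
      (P.blk (γ i).1 (γ j).1 m - g s s • P.blk (γ i).1 (γ j).1 h') (π r') (π r) =
        h' (π r') (π r) * (g r r - g s s) := by
    intro r r' hr hr'
    rw [Matrix.sub_apply, Matrix.smul_apply, P.blk_pos _ (vt_eq L hr) (vt_eq L hr'),
      P.blk_pos _ (vt_eq L hr) (vt_eq L hr'), em' r r' hr hr', smul_eq_mul]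
    ring
  refine hns (single_mem (hsm _) hmem hqt ?_ fun r' r h4 => ?_)
  · rw [hval t u ht hu, (e' t u ht hu).1 hpk]
    exact mul_ne_zero h1 (sub_ne_zero.2 hne)
  · obtain ⟨h5, h6⟩ := hmem.2 r' r h4
    obtain ⟨r, hr, rfl⟩ := exists_pt L i h5
    obtain ⟨r', hr', rfl⟩ := exists_pt L j h6
    rw [hval r r' hr hr'] at h4
    have h7 : h (π r') (π r) ≠ 0 := by
      by_cases h8 : J.pk r' = J.pk r
      · rw [← (e' r r' hr hr').1 h8]
        exact left_ne_zero_of_mul h4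
      · exact absurd ((e' r r' hr hr').2 h8) (left_ne_zero_of_mul h4)
    rcases h3 _ _ h7 with h8 | h8
    · exact ⟨congrArg Prod.snd h8, congrArg Prod.fst h8⟩
    · have h9 : r = s := L.cov.inj _ _ (hr.trans hs.symm) (congrArg Prod.fst h8)
      rw [h9, sub_self, mul_zero] at h4
      exact absurd rfl h4

theorem eqv_eq (L : Lift J P deg π γ θ)
    (hc : ∀ x ∈ Set.range γ, ∀ y, LS P.vt P.Ar deg x y → y ∈ Set.range γ) (i : I)
    (hdist : ∀ p q, P.vt p = (γ i).1 → P.vt q = (γ i).1 → P.pk p = P.pk q → p = q)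
    (hsm : ∀ j (c : F), ∀ b ∈ P.H (γ i).1 j, c • b ∈ P.B) {g : Matrix T T F} (hg : EndR J i g)
    (hdg : ∀ t' t, t' ≠ t → g t' t = 0) {t s : T} (ht : J.vt t = i) (hs : J.vt s = i)
    (hl : Relation.EqvGen (Link (Tie P.vt P.R0)) (π t) (π s)) : g t t = g s s := by
  classical
  let φ : Pt → F := fun x => ∑ r, if J.vt r = i ∧ π r = x then g r r else 0
  have h1 : ∀ r, J.vt r = i → φ (π r) = g r r := fun r hr => by
    refine (Finset.sum_eq_single r (fun z _ hz => if_neg fun e => ?_) (by simp)).trans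
      (if_pos ⟨hr, rfl⟩)
    exact hz (L.cov.inj _ _ (e.1.trans hr.symm) e.2)
  have h2 : ∀ x, P.vt x ≠ (γ i).1 → φ x = 0 := fun x hx =>
    Finset.sum_eq_zero fun r _ =>
      if_neg fun e : J.vt r = i ∧ π r = x => hx (e.2 ▸ vt_eq L e.1)
  have h3 : ∀ x y, Relation.EqvGen (Link (Tie P.vt P.R0)) x y → φ x = φ y := by
    intro x y h
    induction h with
    | rel x y h =>
      have hv : P.vt x = P.vt y := by
        obtain ⟨_, _, -, h, -⟩ := h
        exact h
      by_cases hx : P.vt x = (γ i).1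
      · obtain ⟨r, hr, rfl⟩ := exists_pt L i hx
        obtain ⟨r', hr', rfl⟩ := exists_pt L i (hv.symm.trans hx)
        rw [h1 r hr, h1 r' hr', link_eq L hc i hdist hsm hg hdg hr hr' h]
      · rw [h2 x hx, h2 y fun e => hx (hv.trans e)]
    | refl => rfl
    | symm _ _ _ ih => exact ih.symm
    | trans _ _ _ _ _ ih ih' => exact ih.trans ih'
  rw [← h1 t ht, ← h1 s hs, h3 _ _ hl]

end SepA

theorem sep : SCov1 → SSep := by
  intro hC k F _ _ _ Pt ι Ω _ _ _ P G _ deg val hD hS hdist hsm hrow hdeg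
  have hd : ∀ p q, P.vt p = P.vt q → P.pk p = P.pk q → deg p = deg q := fun p q h h' => by
    by_cases e : P.vt p ∈ val
    · exact hdeg p q h e
    · rw [hdist p q h e h']
  refine ⟨fun Γ₀ h0 => ?_, fun T I O _ _ J π γ θ L hc => ⟨SepA.dir L hD hd, fun i => ?_⟩⟩
  · obtain ⟨rk, hrk⟩ := hD.rk
    exact SepA.closure hrk Γ₀ h0
  obtain ⟨Lb, side, hs1, hs2⟩ := hS (γ i).1
  refine ⟨Lb, fun o => side ((γ i).2⁻¹ * (θ o).2), fun p q hpq hn => ?_,
    fun g g' hg hg' hgg _ h0 h0' hl => ?_⟩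
  · have h := hs1 (γ (J.vt p)).1 ((γ i).2⁻¹ * (γ (J.vt p)).2) (fun h => hn ?_) (π p) (π q)
      (L.vt p).symm (by rw [hpq, L.vt])
    · simp only [L.pk, ← hpq, ← mul_assoc]
      exact h
    · have h1 := SepA.shift (γ i).2 h
      simp only [mul_inv_cancel_left, mul_one] at h1
      obtain ⟨j, hj, h2⟩ :=
        SepA.lift_path L (hC k F Pt ι Ω P T I O J π L.cov).2.2.1 hc (J.vt p) h1
      rwa [L.γinj hj] at h2
  by_cases hv : (γ i).1 ∈ val
  · obtain ⟨h, hh, h1⟩ := SepA.valued L hd i (hrow _ hv) hg.1 hg'.1 h0 h0'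
    exact ⟨h, ⟨hh.2, J.peak h hh.1, fun j _ b hb => J.B.mul_mem hb.1 hh.1⟩, h1⟩
  have hdist' : ∀ p q, P.vt p = (γ i).1 → P.vt q = (γ i).1 → P.pk p = P.pk q → p = q :=
    fun p q hp hq => hdist p q (hp.trans hq.symm) (hp ▸ hv)
  have hdg : ∀ m, EndR J i m → ∀ t' t, t' ≠ t → m t' t = 0 := fun m hm t' t hne => by
    by_contra h
    obtain ⟨h1, h2⟩ := hm.1 t' t h
    exact hne (L.cov.inj _ _ (h2.trans h1.symm) (hdist' _ _ (SepA.vt_eq L h2) (SepA.vt_eq L h1)
      (L.cov.pk_eq _ _ (hm.2.1 t' t h))))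
  have hex : ∀ m, EndR J i m → m ≠ 0 → ∃ t, m t t ≠ 0 := fun m hm h => by
    by_contra h1
    refine h ?_
    ext t' t
    by_cases e : t' = t
    · by_contra h2
      exact h1 ⟨t, e ▸ h2⟩
    · exact hdg m hm t' t e
  obtain ⟨t, ht⟩ := hex g hg h0
  obtain ⟨s, hs⟩ := hex g' hg' h0'
  obtain ⟨c, hl⟩ := hl
  have h1 := (hl t t (Or.inl ht)).trans (hl s s (Or.inr hs)).symm
  have ht' := (hg.1 t t ht).1
  have hs' := (hg'.1 s s hs).1
  simp only [L.pk, ht', hs', inv_mul_cancel_left] at h1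
  have h2 := SepA.eqv_eq L hc i hdist' (fun j => hsm _ j hv) hg (hdg g hg) ht' hs'
    (hs2 hv _ _ (SepA.vt_eq L ht') (SepA.vt_eq L hs') h1)
  refine ⟨g, hg, fun h => ?_⟩
  have h3 := congrFun (congrFun h s) s
  rw [hgg, Matrix.mul_apply, Finset.sum_eq_single s
    (fun z _ hz => by rw [hdg g' hg' z s hz, mul_zero]) (by simp)] at h3
  exact mul_ne_zero (h2 ▸ ht) hs h3

end Pool.Agent.MP_bd94e8_al.H89
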